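import Pool.Agent.L7h67.K4.Stm

set_option autoImplicit false

/-!
# The upper bound `Up4` for sums of the convolution of four characters with monotone weights
-/

namespace Pool.Agent.L7h11.K4

open Finset Pool.Agent.L7h67.K4

/-! ### Summation by parts -/

lemma abel_id (c g : ℕ → ℝ) (N : ℕ) :
    ∑ i ∈ range N, c i * g i = (∑ i ∈ range N, c i) * g N -
      ∑ i ∈ range N, (∑ j ∈ range (i + 1), c j) * (g (i + 1) - g i) := by
  induction N with
  | zero => simp
  | succ N ih =>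
    rw [sum_range_succ, ih, sum_range_succ (fun i => (∑ j ∈ range (i + 1), c j) * (g (i + 1) - g i)),
      sum_range_succ c]
    ring

lemma abel_bound (c g : ℕ → ℝ) (B : ℝ) (hc : ∀ n, |∑ i ∈ range n, c i| ≤ B) (N : ℕ) :
    |∑ i ∈ range N, c i * g i| ≤ B * (|g N| + ∑ i ∈ range N, |g (i + 1) - g i|) := by
  rw [abel_id, mul_add, mul_sum]
  refine (abs_sub _ _).trans (add_le_add ?_ ?_)
  · rw [abs_mul]; exact mul_le_mul_of_nonneg_right (hc N) (abs_nonneg _)
  · refine (abs_sum_le_sum_abs _ _).trans (sum_le_sum fun i _ => ?_)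
    rw [abs_mul]; exact mul_le_mul_of_nonneg_right (hc _) (abs_nonneg _)

/-- partial sums of a bounded periodic function with mean zero -/
lemma period_bound (c : ℕ → ℝ) (k : ℕ) (hk : 0 < k) (hper : ∀ n, c (n + k) = c n)
    (hz : ∑ i ∈ range k, c i = 0) (h1 : ∀ n, |c n| ≤ 1) (n : ℕ) :
    |∑ i ∈ range n, c i| ≤ k := by
  induction n using Nat.strong_induction_on with
  | _ n ih =>
    by_cases hn : n < k
    · refine (abs_sum_le_sum_abs _ _).trans ?_
      calc ∑ i ∈ range n, |c i| ≤ ∑ i ∈ range n, (1 : ℝ) := sum_le_sum fun i _ => h1 i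
        _ = n := by simp
        _ ≤ k := by exact_mod_cast hn.le
    · rw [not_lt] at hn
      obtain ⟨m, rfl⟩ := Nat.exists_eq_add_of_le hn
      rw [sum_range_add, hz, zero_add]
      have : ∑ i ∈ range m, c (k + i) = ∑ i ∈ range m, c i :=
        sum_congr rfl fun i _ => by rw [add_comm k i, hper]
      rw [this]
      exact ih m (by omega)

/-! ### Characters -/

lemma chi_sum {m : ℕ} (hm : 1 < m) (χ : DirichletCharacter ℤ m) (h1 : χ ≠ 1) :
    ∑ i ∈ range m, χ (i : ZMod m) = 0 := by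
  obtain ⟨n, rfl⟩ : ∃ n, m = n + 1 := ⟨m - 1, by omega⟩
  have h := MulChar.sum_eq_zero_of_ne_one h1
  rw [Finset.sum_range (fun i : ℕ => χ (i : ZMod (n + 1)))]
  rw [← h]
  refine Finset.sum_congr rfl fun i _ => ?_
  congr 1
  exact Fin.cast_val_eq_self i

lemma chi_bound {m : ℕ} (hm : 1 < m) (χ : DirichletCharacter ℤ m) (hq : χ.IsQuadratic)
    (h1 : χ ≠ 1) (n : ℕ) : |∑ i ∈ range n, (χ ((i + 1 : ℕ) : ZMod m) : ℝ)| ≤ m := by
  refine period_bound (fun i => (χ ((i + 1 : ℕ) : ZMod m) : ℝ)) m (by omega) (fun i => ?_) ?_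
    (fun i => ?_) n
  · have : ((i + m + 1 : ℕ) : ZMod m) = ((i + 1 : ℕ) : ZMod m) := by
      push_cast
      rw [ZMod.natCast_self]
      ring
    simp only [this]
  · have h2 := chi_sum hm χ h1
    have h3 : ∑ i ∈ range m, (χ ((i + 1 : ℕ) : ZMod m) : ℝ) =
        ∑ i ∈ range m, (χ (i : ZMod m) : ℝ) := by
      have h4 := Finset.sum_range_succ' (fun i : ℕ => (χ (i : ZMod m) : ℝ)) m
      have h5 := Finset.sum_range_succ (fun i : ℕ => (χ (i : ZMod m) : ℝ)) m
      rw [h5] at h4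
      simp only [ZMod.natCast_self, Nat.cast_zero] at h4
      linarith
    rw [h3]
    exact_mod_cast h2
  · rcases hq ((i + 1 : ℕ) : ZMod m) with h | h | h <;> simp only [h] <;> norm_num

/-! ### Weights -/

lemma mo_nonneg {k : ℕ} {w : ℝ → ℝ} (h : Mo k w) (s : ℝ) : 0 ≤ w s := by
  cases k with
  | zero => exact h s
  | succ k => exact h.1 s

lemma mo_anti {k : ℕ} {w : ℝ → ℝ} (h : Mo (k + 1) w) : Antitone w := by
  obtain ⟨-, v, hv, hd⟩ := h
  refine antitone_of_deriv_nonpos (fun s => (hd s).differentiableAt) (fun s => ?_)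
  rw [(hd s).deriv]
  have := mo_nonneg hv s
  linarith

lemma mo_diff (k : ℕ) : ∀ (w : ℝ → ℝ) (a b : ℝ), a ≤ b → Mo (k + 1) w →
    Mo k (fun s => w (s + a) - w (s + b)) := by
  induction k with
  | zero =>
    intro w a b hab h s
    have := mo_anti h (show s + a ≤ s + b by linarith)
    simp only
    linarith
  | succ k ih =>
    intro w a b hab h
    refine ⟨fun s => ?_, ?_⟩
    · have := mo_anti h (show s + a ≤ s + b by linarith)
      simp only
      linarith
    · obtain ⟨-, v, hv, hd⟩ := h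
      refine ⟨fun s => v (s + a) - v (s + b), ih v a b hab hv, fun s => ?_⟩
      have h1 : HasDerivAt (fun s => w (s + a)) (-(v (s + a))) s := by
        have := (hd (s + a)).comp_add_const s a
        exact this
      have h2 : HasDerivAt (fun s => w (s + b)) (-(v (s + b))) s := by
        have := (hd (s + b)).comp_add_const s b
        exact this
      exact (h1.fun_sub h2).congr_deriv (by ring)

/-! ### The convolutions -/

/-- the convolution of the first `k` characters -/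
noncomputable def PA {m : ℕ} (χ : ℕ → DirichletCharacter ℤ m) : ℕ → ArithmeticFunction ℤ
  | 0 => 1
  | k + 1 => PA χ k * af (χ k)

lemma double (A B : ArithmeticFunction ℤ) (N : ℕ) (w : ℝ → ℝ)
    (hw : ∀ s : ℝ, Real.log (N + 1) ≤ s → w s = 0) (s : ℝ) (hs : 0 ≤ s) :
    ∑ n ∈ Icc 1 N, ((A * B) n : ℝ) * w (s + Real.log n) =
      ∑ u ∈ Icc 1 N, (B u : ℝ) * ∑ n ∈ Icc 1 N, (A n : ℝ) * w (s + Real.log u + Real.log n) := by
  have h1 : ∑ u ∈ Icc 1 N, (B u : ℝ) *
      ∑ n ∈ Icc 1 N, (A n : ℝ) * w (s + Real.log u + Real.log n) =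
      ∑ x ∈ Icc 1 N ×ˢ Icc 1 N,
        (A x.1 : ℝ) * (B x.2 : ℝ) * w (s + Real.log x.2 + Real.log x.1) := by
    rw [sum_product_right]
    refine sum_congr rfl fun v _ => ?_
    rw [mul_sum]
    exact sum_congr rfl fun u _ => by ring
  have h2 : ∑ x ∈ Icc 1 N ×ˢ Icc 1 N,
        (A x.1 : ℝ) * (B x.2 : ℝ) * w (s + Real.log x.2 + Real.log x.1) =
      ∑ x ∈ (Icc 1 N ×ˢ Icc 1 N).filter (fun x => x.1 * x.2 ≤ N),
        (A x.1 : ℝ) * (B x.2 : ℝ) * w (s + Real.log x.2 + Real.log x.1) := by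
    rw [sum_filter]
    refine sum_congr rfl fun x hx => ?_
    rw [mem_product, mem_Icc, mem_Icc] at hx
    split_ifs with hxy
    · rfl
    · rw [hw, mul_zero]
      have h3 : (0 : ℝ) < x.1 := by exact_mod_cast (show 0 < x.1 by omega)
      have h4 : (0 : ℝ) < x.2 := by exact_mod_cast (show 0 < x.2 by omega)
      have h5 : Real.log (N + 1) ≤ Real.log (x.1 * x.2) := by
        apply Real.log_le_log (by positivity)
        exact_mod_cast (show N + 1 ≤ x.1 * x.2 by omega)
      rw [Real.log_mul h3.ne' h4.ne'] at h5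
      linarith
  rw [h1, h2, ← sum_fiberwise_of_maps_to (t := Icc 1 N) (g := fun x : ℕ × ℕ => x.1 * x.2)
    (fun x hx => by
      simp only [mem_filter, mem_product, mem_Icc] at hx
      simp only [mem_Icc]
      refine ⟨?_, hx.2⟩
      have : 0 < x.1 * x.2 := Nat.mul_pos (by omega) (by omega)
      omega)]
  refine sum_congr rfl fun n hn => ?_
  rw [mem_Icc] at hn
  have hset : ((Icc 1 N ×ˢ Icc 1 N).filter (fun x => x.1 * x.2 ≤ N)).filter
      (fun x => x.1 * x.2 = n) = n.divisorsAntidiagonal := by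
    ext x
    simp only [mem_filter, mem_product, mem_Icc, Nat.mem_divisorsAntidiagonal]
    constructor
    · rintro ⟨-, h4⟩; exact ⟨h4, by omega⟩
    · rintro ⟨h4, h5⟩
      have h6 : x.1 ∣ n := ⟨x.2, h4.symm⟩
      have h7 : x.2 ∣ n := ⟨x.1, by rw [mul_comm]; exact h4.symm⟩
      have h8 := Nat.le_of_dvd (by omega) h6
      have h9 := Nat.le_of_dvd (by omega) h7
      have h10 := Nat.pos_of_dvd_of_pos h6 (by omega)
      have h11 := Nat.pos_of_dvd_of_pos h7 (by omega)
      exact ⟨⟨⟨⟨by omega, by omega⟩, ⟨by omega, by omega⟩⟩, by omega⟩, h4⟩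
  rw [hset, ArithmeticFunction.mul_apply]
  push_cast
  rw [sum_mul]
  refine sum_congr rfl fun x hx => ?_
  obtain ⟨h4, h5⟩ := Nat.mem_divisorsAntidiagonal.1 hx
  have h6 : (x.1 : ℝ) ≠ 0 := by
    intro h
    have : x.1 = 0 := by exact_mod_cast h
    rw [this, zero_mul] at h4
    exact h5 h4.symm
  have h7 : (x.2 : ℝ) ≠ 0 := by
    intro h
    have : x.2 = 0 := by exact_mod_cast h
    rw [this, mul_zero] at h4
    exact h5 h4.symm
  rw [← h4]
  push_cast
  rw [Real.log_mul h6 h7, show s + (Real.log x.1 + Real.log x.2) =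
    s + Real.log x.2 + Real.log x.1 by ring]

lemma claim {m : ℕ} (hm : 1 < m) (N : ℕ) (χ : ℕ → DirichletCharacter ℤ m)
    (hq : ∀ i, (χ i).IsQuadratic) (h1 : ∀ i, χ i ≠ 1) (k : ℕ) : ∀ w : ℝ → ℝ, Mo k w →
    (∀ s : ℝ, Real.log (N + 1) ≤ s → w s = 0) → ∀ s : ℝ, 0 ≤ s →
    |∑ n ∈ Icc 1 N, (PA χ k n : ℝ) * w (s + Real.log n)| ≤ (m : ℝ) ^ k * w s := by
  have hN0 : (0 : ℝ) ≤ N := Nat.cast_nonneg N
  induction k with
  | zero =>
    intro w hmo hw s hs
    rw [pow_zero, one_mul]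
    rcases Nat.eq_zero_or_pos N with rfl | hN
    · simp
      exact mo_nonneg hmo s
    · rw [Finset.sum_eq_single 1]
      · simp [PA]
        rw [abs_of_nonneg (mo_nonneg hmo s)]
      · intro b _ hb
        simp [PA, ArithmeticFunction.one_apply_ne hb]
      · intro h
        exact absurd (mem_Icc.2 ⟨le_rfl, hN⟩) h
  | succ k ih =>
    intro w hmo hw s hs
    simp only [PA]
    rw [double _ _ N w hw s hs]
    set g : ℕ → ℝ := fun u => ∑ n ∈ Icc 1 N, (PA χ k n : ℝ) * w (s + Real.log u + Real.log n)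
      with hg
    have hchange : ∑ u ∈ Icc 1 N, ((af (χ k)) u : ℝ) * g u =
        ∑ i ∈ range N, (χ k ((i + 1 : ℕ) : ZMod m) : ℝ) * g (i + 1) := by
      rw [Finset.range_eq_Ico, Finset.sum_Ico_add' (fun u => (χ k ((u : ℕ) : ZMod m) : ℝ) * g u) 0 N 1]
      have : Finset.Ico (0 + 1) (N + 1) = Icc 1 N := by
        ext x; simp only [mem_Ico, mem_Icc]; omega
      rw [this]
      refine sum_congr rfl fun u hu => ?_
      rw [mem_Icc] at hu
      have : (af (χ k)) u = χ k (u : ZMod m) := by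
        simp only [af, ArithmeticFunction.coe_mk]
        rw [if_neg (by omega)]
      rw [this]
    rw [hchange]
    have hab := abel_bound (fun i => (χ k ((i + 1 : ℕ) : ZMod m) : ℝ)) (fun i => g (i + 1)) m
      (chi_bound hm (χ k) (hq k) (h1 k)) N
    refine hab.trans ?_
    have hgN : g (N + 1) = 0 := by
      rw [hg]
      refine Finset.sum_eq_zero fun n hn => ?_
      rw [mem_Icc] at hn
      rw [hw, mul_zero]
      have : 0 ≤ Real.log n := Real.log_nonneg (by exact_mod_cast hn.1)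
      push_cast
      linarith
    have hlog : ∀ i : ℕ, Real.log ((i + 1 : ℕ) : ℝ) ≤ Real.log ((i + 1 + 1 : ℕ) : ℝ) := fun i => by
      apply Real.log_le_log
      · positivity
      · push_cast; linarith
    have hlog0 : ∀ i : ℕ, 0 ≤ Real.log ((i + 1 : ℕ) : ℝ) := fun i =>
      Real.log_nonneg (by push_cast; linarith [(Nat.cast_nonneg i : (0 : ℝ) ≤ i)])
    have hstep : ∀ i ∈ range N, |g (i + 1 + 1) - g (i + 1)| ≤ (m : ℝ) ^ k *
        (w (s + Real.log ((i + 1 : ℕ) : ℝ)) - w (s + Real.log ((i + 1 + 1 : ℕ) : ℝ))) := by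
      intro i _
      have h2 := ih (fun t => w (t + Real.log ((i + 1 : ℕ) : ℝ)) -
        w (t + Real.log ((i + 1 + 1 : ℕ) : ℝ))) (mo_diff k w _ _ (hlog i) hmo) (fun t ht => by
          rw [hw, hw, sub_zero]
          · linarith [hlog0 (i + 1)]
          · linarith [hlog0 i]) s hs
      rw [abs_sub_comm]
      have h3 : g (i + 1) - g (i + 1 + 1) = ∑ n ∈ Icc 1 N, (PA χ k n : ℝ) *
          (w (s + Real.log n + Real.log ((i + 1 : ℕ) : ℝ)) -
            w (s + Real.log n + Real.log ((i + 1 + 1 : ℕ) : ℝ))) := by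
        rw [hg]
        simp only
        rw [← Finset.sum_sub_distrib]
        refine sum_congr rfl fun n _ => ?_
        rw [show s + Real.log n + Real.log ((i + 1 : ℕ) : ℝ) =
          s + Real.log ((i + 1 : ℕ) : ℝ) + Real.log n by ring,
          show s + Real.log n + Real.log ((i + 1 + 1 : ℕ) : ℝ) =
          s + Real.log ((i + 1 + 1 : ℕ) : ℝ) + Real.log n by ring]
        ring
      rw [h3]
      exact h2
    have hsum := sum_le_sum hstep
    rw [← mul_sum, Finset.sum_range_sub' (fun i : ℕ => w (s + Real.log ((i + 1 : ℕ) : ℝ)))] at hsum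
    have hend : 0 ≤ w (s + Real.log ((N + 1 : ℕ) : ℝ)) := mo_nonneg hmo _
    have h00 : w (s + Real.log ((0 + 1 : ℕ) : ℝ)) = w s := by simp
    rw [h00] at hsum
    have hmk : (0 : ℝ) ≤ (m : ℝ) ^ k := by positivity
    have hm0 : (0 : ℝ) ≤ m := Nat.cast_nonneg m
    simp only [hgN, abs_zero, zero_add]
    calc (m : ℝ) * ∑ i ∈ range N, |g (i + 1 + 1) - g (i + 1)|
        ≤ (m : ℝ) * ((m : ℝ) ^ k * (w s - w (s + Real.log ((N + 1 : ℕ) : ℝ)))) :=
          mul_le_mul_of_nonneg_left hsum hm0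
      _ ≤ (m : ℝ) * ((m : ℝ) ^ k * w s) := by
          apply mul_le_mul_of_nonneg_left _ hm0
          apply mul_le_mul_of_nonneg_left _ hmk
          linarith
      _ = (m : ℝ) ^ (k + 1) * w s := by ring

theorem up4 : Up4 := by
  intro m N χ w hm hq h1 hmo hw
  have h := claim hm N (fun i => if h : i < 4 then χ ⟨i, h⟩ else χ 0)
    (fun i => by split_ifs <;> exact hq _) (fun i => by split_ifs <;> exact h1 _) 4 w hmo hw 0 le_rfl
  simp only [PA, one_mul, zero_add] at h
  have e : F4 χ = af (χ 0) * af (χ 1) * af (χ 2) * af (χ 3) := rfl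
  rw [e]
  simpa using h

/-! ### The weight -/

lemma hasDeriv_pow (Y : ℝ) (n : ℕ) (s : ℝ) : HasDerivAt (fun s => (max (Y - s) 0) ^ (n + 2))
    (-(((n + 2 : ℕ) : ℝ) * (max (Y - s) 0) ^ (n + 1))) s := by
  rcases lt_trichotomy s Y with h | h | h
  · have h1 : HasDerivAt (fun s : ℝ => (Y - s) ^ (n + 2))
        (((n + 2 : ℕ) : ℝ) * (Y - s) ^ (n + 1) * (-1)) s := by
      have h2 : HasDerivAt (fun s : ℝ => Y - s) (-1) s := by
        simpa using (hasDerivAt_id s).const_sub Y
      have h3 := h2.fun_pow (n + 2)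
      exact h3.congr_deriv (by simp)
    rw [max_eq_left (by linarith : (0 : ℝ) ≤ Y - s)]
    have h4 : (fun s => (max (Y - s) 0) ^ (n + 2)) =ᶠ[nhds s] fun s : ℝ => (Y - s) ^ (n + 2) := by
      filter_upwards [Iio_mem_nhds h] with t ht
      rw [max_eq_left (by linarith [Set.mem_Iio.1 ht] : (0 : ℝ) ≤ Y - t)]
    exact (h1.congr_of_eventuallyEq h4).congr_deriv (by ring)
  · subst h
    have h1 : (fun t => (max (s - t) 0) ^ (n + 2)) =O[nhds s] fun t => ‖t - s‖ ^ (n + 2) := by
      refine Asymptotics.IsBigO.of_bound 1 (Filter.Eventually.of_forall fun t => ?_)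
      rw [one_mul, norm_pow, norm_pow, norm_norm]
      apply pow_le_pow_left₀ (norm_nonneg _)
      rw [Real.norm_eq_abs, Real.norm_eq_abs, abs_of_nonneg (le_max_right _ _), abs_sub_comm]
      exact max_le (le_abs_self _) (abs_nonneg _)
    have h2 := h1.hasFDerivAt (𝕜 := ℝ) (by omega)
    have h3 := h2.hasDerivAt
    simpa using h3
  · have h4 : (fun s => (max (Y - s) 0) ^ (n + 2)) =ᶠ[nhds s] fun _ : ℝ => (0 : ℝ) := by
      filter_upwards [Ioi_mem_nhds h] with t ht
      rw [max_eq_right (by linarith [Set.mem_Ioi.1 ht] : Y - t ≤ 0)]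
      simp
    have h5 := (hasDerivAt_const s (0 : ℝ)).congr_of_eventuallyEq h4
    rw [max_eq_right (by linarith : Y - s ≤ 0)]
    simpa using h5

lemma mo_smul {k : ℕ} : ∀ {w : ℝ → ℝ} (c : ℝ), 0 ≤ c → Mo k w → Mo k (fun s => c * w s) := by
  induction k with
  | zero => intro w c hc h s; exact mul_nonneg hc (h s)
  | succ k ih =>
    intro w c hc h
    obtain ⟨h0, v, hv, hd⟩ := h
    refine ⟨fun s => mul_nonneg hc (h0 s), fun s => c * v s, ih c hc hv, fun s => ?_⟩
    exact ((hd s).const_mul c).congr_deriv (by ring)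

lemma mo_pow (Y : ℝ) (k : ℕ) : ∀ n : ℕ, Mo k (fun s => (max (Y - s) 0) ^ (n + k + 1)) := by
  induction k with
  | zero => intro n s; positivity
  | succ k ih =>
    intro n
    refine ⟨fun s => by positivity, fun s => ((n + k + 2 : ℕ) : ℝ) *
      (max (Y - s) 0) ^ (n + k + 1), mo_smul _ (by positivity) (ih n), fun s => ?_⟩
    exact hasDeriv_pow Y (n + k) s

theorem wt4 : Wt4 := fun Y => mo_pow Y 4 0

end Pool.Agent.L7h11.K4
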